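import Pool.Agent.MWK.Stmts

/-!
# MWK, row SDA: type D, from a disagreement to a chain
-/

set_option autoImplicit false

namespace Pool.Agent.MWK.H7

open Pool.Agent.Helper14_MV Pool.Agent.Helper2_MV

/-- the case where the second word has only one `x` before `y` -/
theorem core (hDAG : DagStmt) (hCHE : CheStmt) (hCH2 : Ch2Stmt) (hTRC : TrcStmt)
    {m e : ℕ} {U V : List ℕ} {x y : ℕ} (he : 1 ≤ e) (hem : e ≤ m) (hAg : Ag (FF m V) U V)
    (H0 : ∀ z, z ∈ pre U y ↔ z ∈ pre V y) (hy1 : Dp (m + 1) V y) (hy0 : ¬ Dp m V y)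
    (hx1 : Dp (e + 1) V x) (hx0 : ¬ Dp e V x) (hU2 : 2 ≤ (pre U y).count x)
    (hV2 : ¬ 2 ≤ (pre V y).count x) :
    ∃ (x d y : ℕ) (cs : List ℕ),
      cs.length = m ∧ (pre U d).count x = 1 ∧ (pre V d).count x = 1 ∧ d ∈ pre U y ∧
        d ∈ pre V y ∧ 2 ≤ (pre U y).count x ∧ (pre V y).count x = 1 ∧ y ∈ U ∧ y ∈ V ∧
        Chc U [y] cs ∧ Chc V [y] cs ∧ (∀ c ∈ cs, 2 ≤ (pre V c).count x) ∧ 2 ≤ V.count x ∧
        (∀ c, cs[m + 1 - e]? = some c → (pre U c).count d = 1 ∧ (pre V c).count d = 1) ∧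
        (cs[m + 1 - e]? = none → U.count d = 1 ∧ V.count d = 1) := by
  have hD := hDAG m U V hAg
  have hyU1 : Dp (m + 1) U y := (hD (m + 1) le_rfl y).2 hy1
  have hyU0 : ¬ Dp m U y := fun h => hy0 ((hD m (by omega) y).1 h)
  have hyU : y ∈ U := hyU1.mem
  have hyV : y ∈ V := hy1.mem
  have hxV : x ∈ pre V y := (H0 x).1 (List.count_pos_iff.1 (by omega))
  have hV1 : (pre V y).count x = 1 := by
    have := List.count_pos_iff.2 hxV
    omega
  obtain ⟨e', rfl⟩ : ∃ e', e = e' + 1 := ⟨e - 1, by omega⟩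
  obtain ⟨d, hd, hdx⟩ : ∃ d, Dp (e' + 1) V d ∧ (pre V d).count x = 1 := by
    rcases hx1 with h | h
    · exact absurd (Dp.simple h) hx0
    · exact h
  have hdm : Dp m V d := hd.le hem
  have hdx' : (pre U d).count x = 1 := (hAg.pre_count_one (y := d) (x := x) hdm hdm).2 hdx
  have hd' : ¬ Dp e' V d := fun h => hx0 (h.step hdx)
  have hdU : d ∈ U := ((hD (e' + 1) (by omega) d).2 hd).mem
  have hdUy : d ∈ pre U y := pre_of_count (x := x) hdU (by omega)
  have hdVy : d ∈ pre V y := (H0 d).1 hdUy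
  have hcount : ∀ c, Dp m V c → ∀ z, ((pre U c).count z = 1 ↔ (pre V c).count z = 1) :=
    fun c hc z => hAg.pre_count_one (y := c) (x := z) hc hc
  have chain : ∃ cs : List ℕ, cs.length = m ∧ Chc U [y] cs ∧ (∀ c ∈ cs, Dp m V c) ∧
      (∀ c, cs[m + 1 - (e' + 1)]? = some c → (pre U c).count d = 1 ∧ (pre V c).count d = 1) ∧
      (cs[m + 1 - (e' + 1)]? = none → U.count d = 1 ∧ V.count d = 1) := by
    rcases e' with _ | f
    · obtain ⟨cs, h1, h2, h3⟩ := hCHE m U y hyU1 hyU0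
      have hnone : cs[m + 1 - (0 + 1)]? = none := by
        rw [List.getElem?_eq_none_iff]
        omega
      have hdV : V.count d = 1 := by
        rcases hd with h | ⟨z, hz, -⟩
        · exact h
        · exact hz.elim
      refine ⟨cs, h1, h2, fun c hc => (hD m (by omega) c).1 (h3 c hc), ?_, ?_⟩
      · intro c hc
        rw [hnone] at hc
        exact absurd hc (by simp)
      · intro _
        exact ⟨(hAg.count_one d).2 hdV, hdV⟩
    · obtain ⟨n, hn⟩ : ∃ n, m = f + n + 1 := ⟨m - f - 1, by omega⟩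
      subst hn
      obtain ⟨cs, h1, h2, h3, c, h4, h5⟩ := hCH2 n f U d y
        ((hD (f + 2) (by omega) d).2 hd)
        (fun h => hd' ((hD (f + 1) (by omega) d).1 h)) hyU1 hyU0 hdUy (by
          intro t ht hdt
          have htV : Dp (f + 1) V t := (hD (f + 1) (by omega) t).1 ht
          have htm : Dp (f + n + 1) V t := htV.le (by omega)
          have hxd : x ∈ pre U d := mem_pre_of_count hdx'
          have hxt : x ∈ pre U t := pre_trans hxd hdt
          have hxt' : x ∈ pre V t := (hAg.mem_pre (y := t) (x := x) htm).1 hxt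
          have hne : (pre V t).count x ≠ 1 := fun h => hx0 (htV.step h)
          have hpos := List.count_pos_iff.2 hxt'
          have hyt : y ∈ pre V t := pre_of_count (x := x) hyV (by omega)
          exact (hAg.mem_pre (y := t) (x := y) htm).2 hyt)
      have h3' : ∀ c ∈ cs, Dp (f + n + 1) V c := fun c hc => (hD _ (by omega) c).1 (h3 c hc)
      have e1 : f + n + 1 + 1 - (f + 1 + 1) = n := by omega
      refine ⟨cs, h1, h2, h3', ?_, ?_⟩
      · intro c' hc'
        rw [e1, h4] at hc'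
        obtain rfl := Option.some.inj hc'
        exact ⟨h5, (hcount c (h3' c (List.mem_of_getElem? h4)) d).1 h5⟩
      · intro hc'
        rw [e1, h4] at hc'
        exact absurd hc' (by simp)
  obtain ⟨cs, h1, h2, h3, h4, h5⟩ := chain
  refine ⟨x, d, y, cs, h1, hdx', hdx, hdUy, hdVy, hU2, hV1, hyU, hyV, h2,
    hTRC m U V hAg cs [y] h3 h2, ?_, ?_, h4, h5⟩
  · intro c hc
    have hyc : y ∈ pre U c := h2.mem_pre y (by simp) c hc
    have h6 := count_pre_mono hyc x
    exact (hAg.2 c x 1 le_rfl (h3 c hc)).1 (by omega)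
  · have h6 := count_pre_le U x y
    exact (hAg.1 x 1 le_rfl).1 (by omega)

/-- **SDA**. -/
theorem sda (hDAG : DagStmt) (hCHE : CheStmt) (hCH2 : Ch2Stmt) (hTRC : TrcStmt) : SdaStmt := by
  intro m e u v he hem hA hN
  have hF : Ag (FF m v) u v := hA.weaken fun y x i h => Or.inl h
  have hD := hDAG m u v hF
  -- the disagreement
  obtain ⟨y, x, i, hi, hFD, hne⟩ : ∃ y x i, i ≤ 1 ∧ FD m (e + 1) v y x i ∧
      ¬ (i + 1 ≤ (pre u y).count x ↔ i + 1 ≤ (pre v y).count x) := by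
    by_contra hc
    apply hN
    refine ⟨hA.1, fun y x i hi hf => ?_⟩
    by_contra h
    exact hc ⟨y, x, i, hi, hf, h⟩
  have hy0 : ¬ Dp m v y := fun h => hne (hA.2 y x i hi (Or.inl h))
  obtain ⟨hy1, hix⟩ : Dp (m + 1) v y ∧ (i = 0 ∨ Dp (e + 1) v x) := by
    rcases hFD with h | h
    · exact absurd h hy0
    · exact h
  have hi0 : i ≠ 0 := fun h => hne (hA.2 y x i hi (Or.inr ⟨hy1, Or.inl h⟩))
  obtain rfl : i = 1 := by omega
  have hx1 : Dp (e + 1) v x := by
    rcases hix with h | h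
    · exact absurd h hi0
    · exact h
  have hx0 : ¬ Dp e v x := fun h => hne (hA.2 y x 1 hi (Or.inr ⟨hy1, Or.inr h⟩))
  have H0 : ∀ z, z ∈ pre u y ↔ z ∈ pre v y := fun z =>
    hA.mem_pre (y := y) (x := z) (Or.inr ⟨hy1, Or.inl rfl⟩)
  by_cases h2 : 2 ≤ (pre u y).count x
  · have h3 : ¬ 2 ≤ (pre v y).count x := fun h => hne ⟨fun _ => h, fun _ => h2⟩
    exact ⟨u, v, Or.inl ⟨rfl, rfl⟩,
      core hDAG hCHE hCH2 hTRC he hem hF H0 hy1 hy0 hx1 hx0 h2 h3⟩
  · have h3 : 2 ≤ (pre v y).count x := by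
      by_contra h
      exact hne ⟨fun h' => absurd h' h2, fun h' => absurd h' h⟩
    have hF' : Ag (FF m u) v u :=
      hF.symm.weaken fun y x i h => (hD m (by omega) y).1 h
    exact ⟨v, u, Or.inr ⟨rfl, rfl⟩,
      core hDAG hCHE hCH2 hTRC he hem hF' (fun z => (H0 z).symm)
        ((hD (m + 1) le_rfl y).2 hy1) (fun h => hy0 ((hD m (by omega) y).1 h))
        ((hD (e + 1) (by omega) x).2 hx1) (fun h => hx0 ((hD e (by omega) x).1 h)) h3 h2⟩

end Pool.Agent.MWK.H7
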