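import Pool.Agent.MWK.Stmts

/-!
# MWK, row DG2: a letter which is simple in one word and multiple in the other
-/

set_option autoImplicit false

namespace Pool.Agent.MWK.H7

open Pool.Agent.Helper14_MV Pool.Agent.Helper2_MV

theorem rcast {β : FIC} {a a' b b' : List ℕ} (ha : a' = a) (hb : b' = b) (h : RR β a b) :
    RR β a' b' := ha ▸ hb ▸ h

theorem sq3 {θ : FIC} (hK : Kc θ) (a : ℕ) : RR θ [a, a] [a, a, a] :=
  rcast (by simp) (by simp) (RR.sub (fun i => if i = 0 then [a] else []) hK.g)

theorem rep2 {θ : FIC} (hK : Kc θ) (a : ℕ) : ∀ n : ℕ, RR θ [a, a] (List.replicate (n + 2) a)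
  | 0 => RR.refl _
  | n + 1 => by
    have h1 := rep2 hK a n
    have h2 : RR θ [a, a, a] (a :: List.replicate (n + 2) a) :=
      RR.append (RR.refl [a]) h1
    exact θ.trans (sq3 hK a) h2

theorem flat_rep (a c : ℕ) : ∀ n : ℕ,
    (List.replicate n c).flatMap (fun _ => [a]) = List.replicate n a
  | 0 => rfl
  | n + 1 => by
    rw [List.replicate_succ, List.flatMap_cons, flat_rep a c n]
    rfl

theorem one_two {θ : FIC} (hK : Kc θ) {u v : List ℕ} {c : ℕ} (h : RR θ u v)
    (hu : u.count c = 1) (hv : 2 ≤ v.count c) (a : ℕ) : RR θ [a] [a, a] := by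
  have h1 := RR.filter (fun i => i == c) h
  have h2 := RR.sub (fun _ => [a]) h1
  obtain ⟨n, hn⟩ : ∃ n, v.count c = n + 2 := ⟨v.count c - 2, by omega⟩
  have e1 : (u.filter (fun i => i == c)).flatMap (fun _ => [a]) = [a] := by
    rw [List.filter_beq, hu]
    rfl
  have e2 : (v.filter (fun i => i == c)).flatMap (fun _ => [a]) = List.replicate (n + 2) a := by
    rw [List.filter_beq, hn, flat_rep]
  rw [e1, e2] at h2
  exact θ.trans h2 (θ.symm (rep2 hK a n))

theorem to_dbl {θ : FIC} (h : ∀ a, RR θ [a] [a, a]) : ∀ w : List ℕ, RR θ w (dbl w)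
  | [] => RR.refl _
  | a :: w => RR.append (h a) (to_dbl h w)

theorem mem_dbl {w : List ℕ} {l : ℕ} : l ∈ dbl w ↔ l ∈ w := by
  unfold dbl
  rw [List.mem_flatMap]
  constructor
  · rintro ⟨a, ha, hl⟩
    simp only [List.mem_cons, List.not_mem_nil, or_false, or_self] at hl
    exact hl ▸ ha
  · intro h
    exact ⟨l, h, by simp⟩

theorem count_dbl (w : List ℕ) (l : ℕ) : (dbl w).count l = 2 * w.count l := by
  induction w with
  | nil => rfl
  | cons a w ih =>
    have e : dbl (a :: w) = a :: a :: dbl w := rfl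
    rw [e, List.count_cons, List.count_cons, List.count_cons, ih]
    omega

/-- **DG2**. -/
theorem dg2 (hCLO : CloStmt) : Dg2Stmt := by
  intro θ hK u v c h hu hv w w' hw
  have h1 := one_two hK h hu hv
  have h2 := hCLO θ hK [] (dbl w) (dbl w') []
    (fun l => by rw [mem_dbl, mem_dbl]; exact hw l)
    (fun l hl => by
      have := List.count_pos_iff.2 (mem_dbl.1 hl)
      rw [List.nil_append, count_dbl]
      omega)
    (fun l hl => by
      have := List.count_pos_iff.2 (mem_dbl.1 hl)
      rw [List.nil_append, count_dbl]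
      omega)
  have h3 : RR θ (dbl w) (dbl w') := rcast (by simp) (by simp) h2
  exact θ.trans (to_dbl h1 w) (θ.trans h3 (θ.symm (to_dbl h1 w')))

end Pool.Agent.MWK.H7
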